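import Pool.Agent.H.MP_294a04_nt.B

set_option autoImplicit false

namespace Pool.Agent.H.MP_ed6e5c_nt

open Pool.Agent.H.MP_294a04_nt (one_le_abs)

section Calc
variable {ρ : ℝ}

theorem rmono (hρ : 4 ≤ ρ) {a b : ℝ} (h : a ≤ b) : ρ ^ a ≤ ρ ^ b :=
  Real.rpow_le_rpow_of_exponent_le (by linarith) h

theorem rlt (hρ : 4 ≤ ρ) {a b : ℝ} (h : a < b) : ρ ^ a < ρ ^ b :=
  Real.rpow_lt_rpow_of_exponent_lt (by linarith) h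

theorem rpos (hρ : 4 ≤ ρ) (a : ℝ) : 0 < ρ ^ a := Real.rpow_pos_of_pos (by linarith) _

theorem rcmp (hρ : 4 ≤ ρ) {a b : ℝ} (h : ρ ^ a ≤ ρ ^ b) : a ≤ b := by
  by_contra hc
  exact absurd (rlt hρ (not_le.1 hc)) (not_lt.2 h)

theorem radd (hρ : 4 ≤ ρ) (a b : ℝ) : ρ ^ (a + b) = ρ ^ a * ρ ^ b :=
  Real.rpow_add (by linarith) _ _

theorem rm (hρ : 4 ≤ ρ) {x y : ℝ} {a b : ℝ} (hx : |x| ≤ ρ ^ a) (hy : |y| ≤ ρ ^ b) :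
    |x * y| ≤ ρ ^ (a + b) := by
  rw [abs_mul, radd hρ]
  exact mul_le_mul hx hy (abs_nonneg _) (rpos hρ _).le

theorem rml (hρ : 4 ≤ ρ) {x y : ℝ} {a b : ℝ} (hx : ρ ^ a ≤ |x|) (hy : ρ ^ b ≤ |y|) :
    ρ ^ (a + b) ≤ |x * y| := by
  rw [abs_mul, radd hρ]
  exact mul_le_mul hx hy (rpos hρ _).le (abs_nonneg _)

theorem rfour (hρ : 4 ≤ ρ) (a : ℝ) : 4 * ρ ^ a ≤ ρ ^ (a + 1) := by
  rw [radd hρ, Real.rpow_one]
  have := rpos hρ a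
  nlinarith

theorem ra (hρ : 4 ≤ ρ) {x y : ℝ} {a b : ℝ} (c : ℝ) (hx : |x| ≤ ρ ^ a) (hy : |y| ≤ ρ ^ b)
    (h1 : a + 1 ≤ c) (h2 : b + 1 ≤ c) : |x + y| ≤ ρ ^ c := by
  have e1 := rmono hρ (show a ≤ c - 1 by linarith)
  have e2 := rmono hρ (show b ≤ c - 1 by linarith)
  have e3 := rfour hρ (c - 1)
  rw [sub_add_cancel] at e3
  have e4 := rpos hρ (c - 1)
  have := abs_add_le x y
  linarith

theorem rs (hρ : 4 ≤ ρ) {x y : ℝ} {a b : ℝ} (c : ℝ) (hx : |x| ≤ ρ ^ a) (hy : |y| ≤ ρ ^ b)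
    (h1 : a + 1 ≤ c) (h2 : b + 1 ≤ c) : |x - y| ≤ ρ ^ c := by
  rw [sub_eq_add_neg]; exact ra hρ c hx (by rwa [abs_neg]) h1 h2

theorem rint (hρ : 4 ≤ ρ) {z : ℤ} {a : ℝ} (h : |(z : ℝ)| ≤ ρ ^ a) (ha : a < 0) : z = 0 := by
  have := rlt hρ ha
  rw [Real.rpow_zero] at this
  have h1 : |(z : ℝ)| < 1 := by linarith
  have h2 : |z| < 1 := by exact_mod_cast h1
  exact Int.abs_lt_one_iff.1 h2

theorem rnz (hρ : 4 ≤ ρ) {z : ℤ} {a : ℝ} (h : |(z : ℝ)| ≤ ρ ^ a) (hz : z ≠ 0) : 0 ≤ a := by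
  by_contra hc
  exact hz (rint hρ h (not_le.1 hc))

theorem rdiv (hρ : 4 ≤ ρ) {x y : ℝ} {a b : ℝ} (hx : |x| ≤ ρ ^ a) (hy : ρ ^ b ≤ |y|) :
    |x / y| ≤ ρ ^ (a - b) := by
  rw [abs_div, Real.rpow_sub (by linarith)]
  exact div_le_div₀ (rpos hρ _).le hx (rpos hρ _) hy

theorem rcancel (hρ : 4 ≤ ρ) {x y : ℝ} {a b : ℝ} (hx : |y * x| ≤ ρ ^ a) (hy : ρ ^ b ≤ |y|) :
    |x| ≤ ρ ^ (a - b) := by
  have hy0 : y ≠ 0 := by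
    intro h; rw [h, abs_zero] at hy; exact absurd (rpos hρ b) (not_lt.2 hy)
  have := rdiv hρ hx hy
  rwa [mul_div_cancel_left₀ _ hy0] at this

theorem rtwo (hρ : 4 ≤ ρ) {x : ℝ} {a : ℝ} (h : |x| ≤ 2 * ρ ^ a) : |x| ≤ ρ ^ (a + 1) := by
  have := rfour hρ a
  have := rpos hρ a
  linarith

theorem zr (ρ : ℝ) (m : ℕ) : ρ ^ (-(m : ℤ)) = ρ ^ (-(m : ℝ)) := by
  rw [← Real.rpow_intCast]; push_cast; rfl

theorem scale (hρ : 4 ≤ ρ) {w γ x : ℝ} (hγ : 0 < γ) (hw : γ ≤ w) (hx : 1 ≤ x) :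
    ∃ N : ℕ, ∃ τ : ℝ, 0 ≤ τ ∧ w * τ = N ∧ ρ ^ (γ * τ) ≤ x ∧ x ≤ ρ ^ (γ * τ + 1) := by
  have hw0 : 0 < w := by linarith
  set y := Real.logb ρ x with hy
  have y0 : 0 ≤ y := Real.logb_nonneg (by linarith) hx
  have ey : ρ ^ y = x := Real.rpow_logb (by linarith) (by linarith) (by linarith)
  have h1 := Nat.floor_le (show 0 ≤ w * y / γ by positivity)
  have h2 := Nat.lt_floor_add_one (w * y / γ)
  set N := ⌊w * y / γ⌋₊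
  rw [le_div_iff₀ hγ] at h1
  rw [div_lt_iff₀ hγ] at h2
  refine ⟨N, N / w, by positivity, by field_simp, ?_, ?_⟩
  · rw [← ey]; apply rmono hρ
    rw [← mul_div_assoc, div_le_iff₀ hw0]; linarith
  · rw [← ey]; apply rmono hρ
    have : γ * (N / w) + 1 = (γ * N + w) / w := by field_simp
    rw [this, le_div_iff₀ hw0]; linarith

theorem down (hρ : 4 ≤ ρ) {Y x : ℝ} (hx : 0 < x) (h : x ≤ ρ ^ Y) :
    ∃ z : ℕ, ρ ^ (Y - z) ≤ x ∧ x ≤ ρ ^ (Y - z + 1) := by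
  set y := Real.logb ρ x with hy
  have ey : ρ ^ y = x := Real.rpow_logb (by linarith) (by linarith) hx
  have h0 : y ≤ Y := rcmp hρ (by rwa [ey])
  have h1 := Nat.le_ceil (Y - y)
  have h2 := Nat.ceil_lt_add_one (show 0 ≤ Y - y by linarith)
  refine ⟨⌈Y - y⌉₊, ?_, ?_⟩ <;> rw [← ey] <;> apply rmono hρ <;> linarith

/-- two rational points give a line -/
theorem pts_line (hρ : 4 ≤ ρ) {ζ x : ℝ} {p1 r1 q1 p2 r2 q2 D : ℤ} {Q d n : ℝ}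
    (h1 : 1 ≤ q1) (h2 : 1 ≤ q2) (hq1 : |(q1 : ℝ)| ≤ ρ ^ Q) (hq2 : |(q2 : ℝ)| ≤ ρ ^ Q)
    (hd1 : |q1 * ζ - r1| ≤ ρ ^ (-d)) (hd2 : |q2 * ζ - r2| ≤ ρ ^ (-d))
    (hx1 : |x - p1 / q1| ≤ 2 * ρ ^ (-n)) (hx2 : |x - p2 / q2| ≤ 2 * ρ ^ (-n))
    (hD1 : D ∣ q1) (hD2 : D ∣ q2)
    (hne : (p1 : ℝ) / q1 ≠ p2 / q2) :
    ∃ A B C : ℤ, D * B ≠ 0 ∧ |(D : ℝ) * A| ≤ ρ ^ (Q - d + 1) ∧ |(D : ℝ) * B| ≤ ρ ^ (2 * Q + 1 - n) ∧
      |(D : ℝ) * A * x + D * B * ζ + C| ≤ ρ ^ (Q - d + 3 - n) := by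
  have q1p : (0 : ℝ) < q1 := by exact_mod_cast (by omega : 0 < q1)
  have q2p : (0 : ℝ) < q2 := by exact_mod_cast (by omega : 0 < q2)
  have hΔ : |(p2 : ℝ) / q2 - p1 / q1| ≤ ρ ^ (-n + 1) := by
    have := abs_sub_le ((p2 : ℝ) / q2) x (p1 / q1)
    rw [abs_sub_comm ((p2 : ℝ) / q2) x] at this
    have := rfour hρ (-n)
    linarith
  obtain ⟨A, eA⟩ : D ∣ r1 * q2 - r2 * q1 := dvd_sub (hD2.mul_left _) (hD1.mul_left _)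
  obtain ⟨B, eB⟩ : D ∣ q1 * p2 - p1 * q2 := dvd_sub (hD1.mul_right _) (hD2.mul_left _)
  have eA' : (D : ℝ) * A = r1 * q2 - r2 * q1 := by exact_mod_cast eA.symm
  have eB' : (D : ℝ) * B = q1 * p2 - p1 * q2 := by exact_mod_cast eB.symm
  have hA : |(D : ℝ) * A| ≤ ρ ^ (Q - d + 1) := by
    have e : (D : ℝ) * A = q1 * (q2 * ζ - r2) - q2 * (q1 * ζ - r1) := by rw [eA']; ring
    rw [e]
    exact rs hρ _ (rm hρ hq1 hd2) (rm hρ hq2 hd1) (by linarith) (by linarith)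
  refine ⟨A, B, p1 * r2 - r1 * p2, ?_, hA, ?_, ?_⟩
  · intro h
    apply hne
    have : (D : ℝ) * B = 0 := by exact_mod_cast h
    rw [eB'] at this
    field_simp
    linarith
  · have e : (D : ℝ) * B = q1 * q2 * ((p2 : ℝ) / q2 - p1 / q1) := by
      rw [eB']; field_simp
    rw [e]
    exact (rm hρ (rm hρ hq1 hq2) hΔ).trans (rmono hρ (by linarith))
  · have e : (D : ℝ) * A * x + D * B * ζ + ((p1 * r2 - r1 * p2 : ℤ) : ℝ) = (D : ℝ) * A * (x - p1 / q1)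
        + q2 * ((p2 : ℝ) / q2 - p1 / q1) * (q1 * ζ - r1) := by
      rw [eA', eB']; push_cast; field_simp; ring
    rw [e]
    exact ra hρ _ (rm hρ hA (rtwo hρ hx1)) (rm hρ (rm hρ hq2 hΔ) hd1) (by linarith) (by linarith)

/-- two lines give a rational point -/
theorem lines_pt (hρ : 4 ≤ ρ) {ζ x : ℝ} {A1 B1 C1 A2 B2 C2 D : ℤ} {α β δ n : ℝ}
    (h1 : A1 ≠ 0) (h2 : A2 ≠ 0) (hD0 : D ≠ 0) (hD : |(D : ℝ)| ≤ ρ ^ δ)
    (hA1 : |(A1 : ℝ)| ≤ ρ ^ (α + 1)) (hA2 : |(A2 : ℝ)| ≤ ρ ^ (α + 1))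
    (hB1 : |(B1 : ℝ)| ≤ ρ ^ β) (hB2 : |(B2 : ℝ)| ≤ ρ ^ β)
    (hx1 : |x - -(D * B1 * ζ + C1) / (D * A1)| ≤ 2 * ρ ^ (-n))
    (hx2 : |x - -(D * B2 * ζ + C2) / (D * A2)| ≤ 2 * ρ ^ (-n))
    (hneg : 2 * α + δ + 4 - n < 0)
    (hne : -((D : ℝ) * B1 * ζ + C1) / (D * A1) ≠ -(D * B2 * ζ + C2) / (D * A2)) :
    ∃ p r q : ℤ, 1 ≤ q ∧ D ∣ q ∧ |(q : ℝ)| ≤ ρ ^ (δ + α + β + 2) ∧
      |q * x - p| ≤ ρ ^ (β + δ + α + 3 - n) ∧ |q * ζ - r| ≤ ρ ^ (2 * α + δ + 4 - n) := by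
  have a1 : (A1 : ℝ) ≠ 0 := by exact_mod_cast h1
  have a2 : (A2 : ℝ) ≠ 0 := by exact_mod_cast h2
  have d0 : (D : ℝ) ≠ 0 := by exact_mod_cast hD0
  have L1 : |D * A1 * x + D * B1 * ζ + C1| ≤ ρ ^ (δ + (α + 1) + (-n + 1)) := by
    have e : D * A1 * x + D * B1 * ζ + C1 = D * A1 * (x - -(D * B1 * ζ + C1) / (D * A1)) := by
      field_simp; ring
    rw [e]; exact rm hρ (rm hρ hD hA1) (rtwo hρ hx1)
  have L2 : |D * A2 * x + D * B2 * ζ + C2| ≤ ρ ^ (δ + (α + 1) + (-n + 1)) := by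
    have e : D * A2 * x + D * B2 * ζ + C2 = D * A2 * (x - -(D * B2 * ζ + C2) / (D * A2)) := by
      field_simp; ring
    rw [e]; exact rm hρ (rm hρ hD hA2) (rtwo hρ hx2)
  have hq : |((D * (A1 * B2 - A2 * B1) : ℤ) : ℝ)| ≤ ρ ^ (δ + α + β + 2) := by
    push_cast
    exact (rm hρ hD (rs hρ (α + β + 2) (rm hρ hA1 hB2) (rm hρ hA2 hB1) (by linarith)
      (by linarith))).trans (rmono hρ (by linarith))
  have hp : |((D * (A1 * B2 - A2 * B1) : ℤ) : ℝ) * x - ((B1 * C2 - B2 * C1 : ℤ) : ℝ)|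
      ≤ ρ ^ (β + δ + α + 3 - n) := by
    have e : ((D * (A1 * B2 - A2 * B1) : ℤ) : ℝ) * x - ((B1 * C2 - B2 * C1 : ℤ) : ℝ)
        = B2 * (D * A1 * x + D * B1 * ζ + C1) - B1 * (D * A2 * x + D * B2 * ζ + C2) := by
      push_cast; ring
    rw [e]
    exact rs hρ _ (rm hρ hB2 L1) (rm hρ hB1 L2) (by linarith) (by linarith)
  have hr : |((D * (A1 * B2 - A2 * B1) : ℤ) : ℝ) * ζ - ((A2 * C1 - A1 * C2 : ℤ) : ℝ)|
      ≤ ρ ^ (2 * α + δ + 4 - n) := by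
    have e : ((D * (A1 * B2 - A2 * B1) : ℤ) : ℝ) * ζ - ((A2 * C1 - A1 * C2 : ℤ) : ℝ)
        = A1 * (D * A2 * x + D * B2 * ζ + C2) - A2 * (D * A1 * x + D * B1 * ζ + C1) := by
      push_cast; ring
    rw [e]
    exact rs hρ _ (rm hρ hA1 L2) (rm hρ hA2 L1) (by linarith) (by linarith)
  rcases lt_trichotomy (D * (A1 * B2 - A2 * B1)) 0 with hlt | heq | hgt
  · refine ⟨-(B1 * C2 - B2 * C1), -(A2 * C1 - A1 * C2), -(D * (A1 * B2 - A2 * B1)), by omega,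
      (dvd_mul_right _ _).neg_right, ?_, ?_, ?_⟩
    · rw [Int.cast_neg, abs_neg]; exact hq
    · rw [Int.cast_neg, Int.cast_neg, ← abs_neg]; convert hp using 2; ring
    · rw [Int.cast_neg, Int.cast_neg, ← abs_neg]; convert hr using 2; ring
  · exfalso
    rw [heq] at hr
    simp only [Int.cast_zero, zero_mul, zero_sub, abs_neg] at hr
    have h0 := rint hρ hr hneg
    apply hne
    have e1 : ((D * (A1 * B2 - A2 * B1) : ℤ) : ℝ) = 0 := by exact_mod_cast heq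
    have e2 : ((A2 * C1 - A1 * C2 : ℤ) : ℝ) = 0 := by exact_mod_cast h0
    push_cast at e1 e2
    field_simp
    linear_combination ζ * e1 - e2
  · exact ⟨_, _, _, hgt, dvd_mul_right _ _, hq, hp, hr⟩

theorem pt_close (hρ : 4 ≤ ρ) {x : ℝ} {p q : ℤ} {a b : ℝ} (hq : 1 ≤ q) (h : |q * x - p| ≤ ρ ^ a)
    (hb : ρ ^ b ≤ |(q : ℝ)|) : |x - p / q| ≤ ρ ^ (a - b) := by
  have q1p : (0 : ℝ) < q := by exact_mod_cast (by omega : 0 < q)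
  have e : x - p / q = (q * x - p) / q := by field_simp
  rw [e]; exact rdiv hρ h hb

theorem pt_far (hρ : 4 ≤ ρ) {x : ℝ} {p q : ℤ} {a b : ℝ} (hq : 1 ≤ q) (h : ρ ^ a ≤ |x - p / q|)
    (hb : ρ ^ b ≤ |(q : ℝ)|) : ρ ^ (b + a) ≤ |q * x - p| := by
  have q1p : (0 : ℝ) < q := by exact_mod_cast (by omega : 0 < q)
  have e : q * x - p = q * (x - p / q) := by field_simp
  rw [e]; exact rml hρ hb h

theorem line_close (hρ : 4 ≤ ρ) {x A E : ℝ} {a b : ℝ}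
    (h : |A * x + E| ≤ ρ ^ a) (hb : ρ ^ b ≤ |A|) : |x - -E / A| ≤ ρ ^ (a - b) := by
  have a1 : A ≠ 0 := by
    intro h; rw [h, abs_zero] at hb; exact absurd (rpos hρ b) (not_lt.2 hb)
  have e : x - -E / A = (A * x + E) / A := by field_simp; ring
  rw [e]; exact rdiv hρ h hb

theorem conv (hρ : 4 ≤ ρ) {w b e τ q u : ℝ} (hw : 0 < w) (he : b / w < e) (hq : ρ ^ τ ≤ q)
    (hu : ρ ^ (-(w * τ + b)) ≤ u) : q * u ^ (1 / w) > ρ ^ (-e) := by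
  have h1 : (ρ ^ (-(w * τ + b))) ^ (1 / w) ≤ u ^ (1 / w) :=
    Real.rpow_le_rpow (rpos hρ _).le hu (by positivity)
  rw [← Real.rpow_mul (by linarith)] at h1
  have e1 : -(w * τ + b) * (1 / w) = -τ - b / w := by field_simp; ring
  rw [e1] at h1
  calc ρ ^ (-e) < ρ ^ (τ + (-τ - b / w)) := rlt hρ (by linarith)
    _ = ρ ^ τ * ρ ^ (-τ - b / w) := radd hρ _ _
    _ ≤ _ := mul_le_mul hq h1 (rpos hρ _).le ((rpos hρ _).le.trans hq)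

end Calc

end Pool.Agent.H.MP_ed6e5c_nt
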