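import Pool.Agent.H.MP_ed6e5c_nt.A

set_option autoImplicit false

namespace Pool.Agent.H.MP_ed6e5c_nt

open Pool.Agent.H.MP_294a04_nt (one_le_abs Nice Av)

structure Dd (ρ : ℝ) (δ : ℝ → ℤ) : Prop where
  up : ∀ y, 0 ≤ y → |(δ y : ℝ)| ≤ ρ ^ y
  lo : ∀ y, ρ ^ (y - 1) ≤ |(δ y : ℝ)|
  dvd : ∀ y y', y ≤ y' → δ y ∣ δ y'

theorem Dd.ne {ρ : ℝ} {δ : ℝ → ℤ} (hρ : 4 ≤ ρ) (h : Dd ρ δ) (y : ℝ) : δ y ≠ 0 := by
  intro h0
  have := h.lo y
  rw [h0] at this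
  simp only [Int.cast_zero, abs_zero] at this
  exact absurd (rpos hρ _) (not_lt.2 this)

/-! ### one-dimensional mixed system -/

def Mix (ρ : ℝ) (δ : ℝ → ℤ) (i k : ℝ) (on : Prop) (m n : ℕ) (_t : Unit) : Set ℝ :=
  {c | on ∧ m = n + 1 ∧ ∃ τ : ℝ, 0 ≤ τ ∧ (i + 2 * k) * τ = m - 6 ∧ ∃ p q : ℤ, 1 ≤ q ∧
    |(q : ℝ)| ≤ ρ ^ ((i + k) * τ + 1) ∧ δ (i * τ) ∣ q ∧ c = p / q}

theorem niceMix {ρ : ℝ} {δ : ℝ → ℤ} {i k : ℝ} {on : Prop} (hρ : 4 ≤ ρ) (hδ : Dd ρ δ) (hi : 0 ≤ i)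
    (hk : on → 0 < k) : Nice ρ (Mix ρ δ i k on) := by
  constructor
  · rintro m n t c ⟨-, h, -⟩; omega
  · rintro m n t x c1 c2 - ⟨ho, e1, τ, τ0, m1, p1, q1, h1, hq1, hd1, rfl⟩
      ⟨-, -, τ', -, m2, p2, q2, h2, hq2, hd2, rfl⟩ d1 d2
    have k0 := hk ho
    obtain rfl : τ = τ' := mul_left_cancel₀ (show i + 2 * k ≠ 0 by positivity) (m1.trans m2.symm)
    rw [zr] at d1 d2
    by_contra hne
    have e2 : (m : ℝ) = n + 1 := by exact_mod_cast e1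
    obtain ⟨A, B, C, hB0, -, hB, -⟩ := pts_line hρ (ζ := 0) (r1 := 0) (r2 := 0) (d := 0) h1 h2 hq1 hq2
      (by simp) (by simp) d1 d2 hd1 hd2 hne
    have h3 := rcancel hρ hB (hδ.lo _)
    have h4 := rint hρ h3 (by linarith)
    exact hB0 (by rw [h4, mul_zero])

def HM (ρ : ℝ) (δ : ℝ → ℤ) (i k ζ : ℝ) : Prop :=
  ∀ τ : ℝ, ∀ q p : ℤ, q ≠ 0 → δ (i * τ) ∣ q → |(q : ℝ)| ≤ ρ ^ ((i + k) * τ) →
    ρ ^ (-(k * τ + 6)) ≤ |q * ζ - p|

theorem finalMix {ρ : ℝ} {δ : ℝ → ℤ} {i k x : ℝ} {on : Prop} (hρ : 4 ≤ ρ) (hδ : Dd ρ δ) (hi : 0 ≤ i)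
    (hk : 0 < k) (ho : on)
    (h : ∀ m n t, ∀ c ∈ Mix ρ δ i k on m n t, ρ ^ (-(m : ℤ)) ≤ |x - c|) : HM ρ δ i k x := by
  have pos : ∀ τ : ℝ, ∀ q p : ℤ, 1 ≤ q → δ (i * τ) ∣ q → |(q : ℝ)| ≤ ρ ^ ((i + k) * τ) →
      ρ ^ (-(k * τ + 6)) ≤ |q * x - p| := by
    intro τ' q p hq hd hle
    have q1 : (1 : ℝ) ≤ q := by exact_mod_cast hq
    obtain ⟨N, τ, τ0, e, h1, h2⟩ := scale hρ (γ := i + k) (w := i + 2 * k) (by positivity)
      (by linarith) q1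
    rw [← abs_of_pos (show (0 : ℝ) < q by linarith)] at h1 h2
    have h3 : τ ≤ τ' := le_of_mul_le_mul_left (rcmp hρ (h1.trans hle)) (by positivity)
    have h4 := h (N + 6) (N + 5) () (p / q) ⟨ho, rfl, τ, τ0, by push_cast; linarith, p, q, hq, h2,
      (hδ.dvd _ _ (by gcongr)).trans hd, rfl⟩
    rw [zr] at h4
    refine le_trans (rmono hρ ?_) (pt_far hρ hq h4 h1)
    have : k * τ ≤ k * τ' := by gcongr
    push_cast; linarith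
  intro τ q p hq hd hle
  rcases lt_or_gt_of_ne hq with h0 | h0
  · have := pos τ (-q) (-p) (by omega) hd.neg_right (by rwa [Int.cast_neg, abs_neg])
    rw [← abs_neg]
    convert this using 2
    push_cast; ring
  · exact pos τ q p h0 hd hle

/-! ### the two-dimensional system -/

def Prim (ρ : ℝ) (δ : ℝ → ℤ) (i j k ζ : ℝ) (m : ℕ) (c : ℝ) : Prop :=
  ∃ τ : ℝ, 0 ≤ τ ∧ (1 + j) * τ = m - 12 ∧ ∃ p r q : ℤ, 1 ≤ q ∧ |(q : ℝ)| ≤ ρ ^ (τ + 1) ∧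
    δ (i * τ) ∣ q ∧ |q * ζ - r| ≤ ρ ^ (-(k * τ + 12)) ∧ c = p / q

def Dual (ρ : ℝ) (δ : ℝ → ℤ) (i j k ζ : ℝ) (m z : ℕ) (c : ℝ) : Prop :=
  z < m ∧ ∃ τ : ℝ, 0 ≤ τ ∧ (1 + j) * τ = m + z - 17 ∧ ∃ A B C : ℤ, A ≠ 0 ∧
    |(A : ℝ)| ≤ ρ ^ (j * τ - z + 1) ∧ |(B : ℝ)| ≤ ρ ^ (k * τ - 2) ∧
    c = -(δ (i * τ) * B * ζ + C) / (δ (i * τ) * A)

def Two (ρ : ℝ) (δ : ℝ → ℤ) (i j k ζ : ℝ) (on : Prop) (s : ℕ) (m n : ℕ) (t : Option (Fin s)) : Set ℝ :=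
  {c | on ∧ (match t with
    | none => m = n + 1 ∧ Prim ρ δ i j k ζ m c
    | some u => ∃ κ : ℕ, m = n + 1 + κ ∧ Dual ρ δ i j k ζ m (s * κ + u) c)}

theorem Prim.mem {ρ : ℝ} {δ : ℝ → ℤ} {i j k ζ : ℝ} {on : Prop} (s : ℕ) {m : ℕ} {c : ℝ} (ho : on)
    (hj : 0 ≤ j) (h : Prim ρ δ i j k ζ m c) : ∃ n t, c ∈ Two ρ δ i j k ζ on s m n t := by
  have h' := h
  obtain ⟨τ, τ0, e, -⟩ := h'
  have : (0 : ℝ) ≤ (1 + j) * τ := by positivity
  have : (12 : ℝ) ≤ m := by linarith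
  have : 12 ≤ m := by exact_mod_cast this
  exact ⟨m - 1, none, ho, by omega, h⟩

theorem Dual.mem {ρ : ℝ} {δ : ℝ → ℤ} {i j k ζ : ℝ} {on : Prop} {s : ℕ} (hs : 0 < s) {m z : ℕ} {c : ℝ}
    (ho : on) (h : Dual ρ δ i j k ζ m z c) : ∃ n t, c ∈ Two ρ δ i j k ζ on s m n t := by
  have h1 := h.1
  have h2 : z / s ≤ z := Nat.div_le_self _ _
  refine ⟨m - 1 - z / s, some ⟨z % s, Nat.mod_lt _ hs⟩, ho, z / s, by omega, ?_⟩
  simp only
  rwa [Nat.div_add_mod]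

theorem niceTwo {ρ : ℝ} {δ : ℝ → ℤ} {i j k ζ : ℝ} {on : Prop} {s : ℕ} (hρ : 4 ≤ ρ) (hδ : Dd ρ δ)
    (hi : 0 ≤ i) (hj : 0 ≤ j) (hk : 0 ≤ k) (hsum : i + j + k = 1) (hs : 0 < s)
    (hjs : on → 1 ≤ j * s) (hζ : on → HM ρ δ i k ζ) : Nice ρ (Two ρ δ i j k ζ on s) := by
  constructor
  · rintro m n (_ | u) c ⟨-, h⟩
    · have := h.1; omega
    · obtain ⟨κ, h, -⟩ := h; omega
  · rintro m n (_ | u) x c1 c2 hav ⟨ho, o1⟩ ⟨-, o2⟩ d1 d2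
    · obtain ⟨e1, τ, τ0, m1, p1, r1, q1, h1, hq1, hD1, hd1, rfl⟩ := o1
      obtain ⟨-, τ', -, m2, p2, r2, q2, h2, hq2, hD2, hd2, rfl⟩ := o2
      obtain rfl : τ = τ' := mul_left_cancel₀ (show 1 + j ≠ 0 by positivity) (m1.trans m2.symm)
      rw [zr] at d1 d2
      by_contra hne
      have e2 : (m : ℝ) = n + 1 := by exact_mod_cast e1
      have es : i * τ + j * τ + k * τ = τ := by rw [← add_mul, ← add_mul, hsum, one_mul]
      have i0 : 0 ≤ i * τ := by positivity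
      have j0 : 0 ≤ j * τ := by positivity
      have k0 : 0 ≤ k * τ := by positivity
      obtain ⟨A, B, C, hB0, hA, hB, hL⟩ := pts_line hρ h1 h2 hq1 hq2 hd1 hd2 d1 d2 hD1 hD2 hne
      by_cases hA0 : A = 0
      · subst hA0
        have h3 := hζ ho τ (δ (i * τ) * B) (-C) hB0 (dvd_mul_right _ _)
          (by push_cast; exact hB.trans (rmono hρ (by linarith)))
        have e : ((δ (i * τ) * B : ℤ) : ℝ) * ζ - ((-C : ℤ) : ℝ)
            = (δ (i * τ) : ℝ) * ((0 : ℤ) : ℝ) * x + δ (i * τ) * B * ζ + C := by push_cast; ring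
        rw [e] at h3
        have := rcmp hρ (h3.trans hL)
        linarith
      · have hA' := rcancel hρ hA (hδ.lo _)
        have hB' := rcancel hρ hB (hδ.lo _)
        have A1 := one_le_abs hA0
        obtain ⟨z, hz1, hz2⟩ := down hρ (Y := j * τ) (by linarith : 0 < |(A : ℝ)|)
          (hA'.trans (rmono hρ (by linarith)))
        have b1 := rcmp hρ (hz1.trans hA')
        have b2 := rnz hρ hz2 hA0
        have z1 : 9 ≤ z := by exact_mod_cast (show (9 : ℝ) ≤ z by linarith)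
        have z2 : 2 * z < m + 5 := by exact_mod_cast (show 2 * (z : ℝ) < m + 5 by linarith)
        have ec : ((m + 5 - z : ℕ) : ℝ) = m + 5 - z := by
          rw [Nat.cast_sub (by omega)]; push_cast; ring
        have hD : Dual ρ δ i j k ζ (m + 5 - z) z (-(δ (i * τ) * B * ζ + C) / (δ (i * τ) * A)) :=
          ⟨by omega, τ, τ0, by rw [ec]; linarith, A, B, C, hA0, hz2,
            hB'.trans (rmono hρ (by linarith)), rfl⟩
        obtain ⟨n', t', hm⟩ := hD.mem hs ho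
        have c1 := hav _ (by omega) n' t' _ hm
        rw [zr, ec] at c1
        rw [add_assoc] at hL
        have c2 := rcmp hρ (c1.trans (line_close hρ hL (rml hρ (hδ.lo _) hz1)))
        linarith
    · obtain ⟨κ, e1, -, τ, τ0, m1, A1, B1, C1, hA01, hA1, hB1, rfl⟩ := o1
      obtain ⟨κ', e1', -, τ', -, m2, A2, B2, C2, hA02, hA2, hB2, rfl⟩ := o2
      obtain rfl : κ = κ' := by omega
      obtain rfl : τ = τ' := mul_left_cancel₀ (show 1 + j ≠ 0 by positivity) (m1.trans m2.symm)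
      rw [zr] at d1 d2
      by_contra hne
      have e2 : (m : ℝ) = n + 1 + κ := by exact_mod_cast e1
      set z : ℕ := s * κ + u with hz
      have z1 : (s : ℝ) * κ ≤ z := by rw [hz]; push_cast; have : (0 : ℝ) ≤ (u : ℕ) := Nat.cast_nonneg _; linarith
      have s1 : (1 : ℝ) ≤ s := by exact_mod_cast hs
      have κ0 : (0 : ℝ) ≤ κ := Nat.cast_nonneg _
      have z2 : (κ : ℝ) ≤ z := by nlinarith
      have z3 : (κ : ℝ) ≤ j * z := by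
        have := hjs ho
        calc (κ : ℝ) ≤ (j * s) * κ := by nlinarith
          _ = j * (s * κ) := by ring
          _ ≤ _ := by gcongr
      have es : i * τ + j * τ + k * τ = τ := by rw [← add_mul, ← add_mul, hsum, one_mul]
      have i0 : 0 ≤ i * τ := by positivity
      have j0 : 0 ≤ j * τ := by positivity
      have k0 : 0 ≤ k * τ := by positivity
      obtain ⟨p, r, q, hq1, hDq, hq, hp, hr⟩ := lines_pt hρ hA01 hA02 (hδ.ne hρ _) (hδ.up _ i0)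
        hA1 hA2 hB1 hB2 d1 d2 (by linarith) hne
      have q1 : (1 : ℝ) ≤ q := by exact_mod_cast hq1
      obtain ⟨N, τ1, τ10, e, h1, h2⟩ := scale hρ (γ := 1) (w := 1 + j) one_pos (by linarith) q1
      rw [← abs_of_pos (show (0 : ℝ) < q by linarith), one_mul] at h1 h2
      have b1 := rcmp hρ (h1.trans hq)
      have b2 : τ1 ≤ τ - z := by linarith
      have b3 : j * τ1 ≤ j * (τ - z) := by gcongr
      have b4 : k * τ1 ≤ k * τ := by gcongr; linarith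
      have hP : Prim ρ δ i j k ζ (N + 12) (p / q) :=
        ⟨τ1, τ10, by push_cast; linarith, p, r, q, hq1, h2,
          (hδ.dvd _ _ (by gcongr; linarith)).trans hDq, hr.trans (rmono hρ (by linarith)), rfl⟩
      obtain ⟨n', t', hm⟩ := hP.mem s ho hj
      have c1 := hav _ (by exact_mod_cast (show ((N + 12 : ℕ) : ℝ) ≤ n by push_cast; linarith))
        n' t' _ hm
      rw [zr] at c1
      have c2 := rcmp hρ (c1.trans (pt_close hρ hq1 hp h1))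
      push_cast at c2
      linarith

theorem finalTwo {ρ : ℝ} {δ : ℝ → ℤ} {i j k ζ x : ℝ} {on : Prop} {s : ℕ} (hρ : 4 ≤ ρ)
    (hj : 0 ≤ j) (ho : on)
    (h : ∀ m n t, ∀ c ∈ Two ρ δ i j k ζ on s m n t, ρ ^ (-(m : ℤ)) ≤ |x - c|) (p r q : ℤ)
    (hq : 1 ≤ q) : ∃ τ : ℝ, 0 ≤ τ ∧ ρ ^ τ ≤ q ∧ (¬ δ (i * τ) ∣ q ∨
      ρ ^ (-(j * τ + 12)) ≤ |q * x - p| ∨ ρ ^ (-(k * τ + 12)) ≤ |q * ζ - r|) := by
  have q1 : (1 : ℝ) ≤ q := by exact_mod_cast hq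
  obtain ⟨N, τ, τ0, e, h1, h2⟩ := scale hρ (γ := 1) (w := 1 + j) one_pos (by linarith) q1
  rw [one_mul] at h1 h2
  refine ⟨τ, τ0, h1, ?_⟩
  by_cases a1 : δ (i * τ) ∣ q
  swap
  · exact Or.inl a1
  by_cases a2 : |q * ζ - r| ≤ ρ ^ (-(k * τ + 12))
  swap
  · exact Or.inr (Or.inr (not_le.1 a2).le)
  rw [← abs_of_pos (show (0 : ℝ) < q by linarith)] at h1 h2
  have hP : Prim ρ δ i j k ζ (N + 12) (p / q) :=
    ⟨τ, τ0, by push_cast; linarith, p, r, q, hq, h2, a1, a2, rfl⟩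
  obtain ⟨n', t', hm⟩ := hP.mem s ho hj
  have c1 := h _ _ _ _ hm
  rw [zr] at c1
  refine Or.inr (Or.inl (le_trans (rmono hρ ?_) (pt_far hρ hq c1 h1)))
  push_cast; linarith

theorem finalOne {ρ : ℝ} {δ : ℝ → ℤ} {i k x : ℝ} (hρ : 4 ≤ ρ) (hsum : i + k = 1)
    (h : HM ρ δ i k x) (p q : ℤ) (hq : 1 ≤ q) :
    ∃ τ : ℝ, 0 ≤ τ ∧ ρ ^ τ ≤ q ∧ (¬ δ (i * τ) ∣ q ∨ ρ ^ (-(k * τ + 12)) ≤ |q * x - p|) := by
  have q1 : (1 : ℝ) ≤ q := by exact_mod_cast hq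
  have ey : ρ ^ Real.logb ρ q = q := Real.rpow_logb (by linarith) (by linarith) (by linarith)
  refine ⟨Real.logb ρ q, Real.logb_nonneg (by linarith) q1, ey.le, ?_⟩
  by_cases a1 : δ (i * Real.logb ρ q) ∣ q
  swap
  · exact Or.inl a1
  refine Or.inr (le_trans (rmono hρ (by linarith)) (h _ q p (by omega) a1 ?_))
  rw [hsum, one_mul, ey, abs_of_pos (by linarith)]

end Pool.Agent.H.MP_ed6e5c_nt
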