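import Pool.Agent.H.MP_ed6e5c_nt.B

set_option autoImplicit false

namespace Pool.Agent.H.MP_ed6e5c_nt

open Pool.Agent.H.MP_294a04_nt (one_le_abs Nice Av sumF cantor)

def PD (d : ℕ → ℕ) (n : ℕ) : ℕ := ∏ m ∈ Finset.range n, d m

theorem PD_gt (d : ℕ → ℕ) (hd : ∀ n, 2 ≤ d n) (n : ℕ) : n < PD d n := by
  induction n with
  | zero => simp [PD]
  | succ n ih =>
    have : PD d (n + 1) = PD d n * d n := Finset.prod_range_succ _ _
    have := hd n
    nlinarith

theorem PD_dvd (d : ℕ → ℕ) {n n' : ℕ} (h : n ≤ n') : PD d n ∣ PD d n' :=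
  Finset.prod_dvd_prod_of_subset _ _ _ (Finset.range_mono h)

theorem exists_delta (d : ℕ → ℕ) (hd : ∀ n, 2 ≤ d n) {ρ : ℝ} (hρ : 4 ≤ ρ) (hM : ∀ n, (d n : ℝ) ≤ ρ) :
    ∃ δ : ℝ → ℤ, Dd ρ δ ∧ δ 0 = 1 ∧ ∀ y, 0 ≤ y → ∀ q : ℕ, ¬ δ y ∣ (q : ℤ) →
      ρ ^ (-(y + 0)) ≤ sInf ((fun n : ℕ => (1 : ℝ) / ((PD d n : ℕ) : ℝ)) '' {n : ℕ | PD d n ∣ q}) := by
  classical
  have ex : ∀ y : ℝ, ∃ n : ℕ, ρ ^ y < PD d (n + 1) := by
    intro y
    obtain ⟨n, hn⟩ := exists_nat_ge (ρ ^ y)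
    refine ⟨n, hn.trans_lt ?_⟩
    have := PD_gt d hd (n + 1)
    exact_mod_cast (by omega : n < PD d (n + 1))
  have pos : ∀ n, (0 : ℝ) < PD d n := fun n => by
    have := PD_gt d hd n
    exact_mod_cast (by omega : 0 < PD d n)
  have up : ∀ y, 0 ≤ y → (PD d (Nat.find (ex y)) : ℝ) ≤ ρ ^ y := by
    intro y hy
    rcases Nat.eq_zero_or_pos (Nat.find (ex y)) with h | h
    · rw [h]; simp only [PD, Finset.range_zero, Finset.prod_empty, Nat.cast_one]
      exact Real.one_le_rpow (by linarith) hy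
    · have := Nat.find_min (ex y) (show Nat.find (ex y) - 1 < Nat.find (ex y) by omega)
      rw [Nat.sub_add_cancel h] at this
      exact not_lt.1 this
  refine ⟨fun y => PD d (Nat.find (ex y)), ⟨fun y hy => ?_, fun y => ?_, fun y y' h => ?_⟩, ?_, ?_⟩
  · simpa using up y hy
  · have h1 := Nat.find_spec (ex y)
    have h2 : PD d (Nat.find (ex y) + 1) = PD d (Nat.find (ex y)) * d (Nat.find (ex y)) :=
      Finset.prod_range_succ _ _
    rw [h2] at h1
    push_cast at h1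
    simp only [Int.cast_natCast, Nat.abs_cast]
    rw [Real.rpow_sub (by linarith), Real.rpow_one, div_le_iff₀ (by linarith)]
    have := hM (Nat.find (ex y))
    have := pos (Nat.find (ex y))
    nlinarith
  · refine Int.natCast_dvd_natCast.2 (PD_dvd d (Nat.find_mono fun n hn => ?_))
    exact (rmono hρ h).trans_lt hn
  · have h1 := (up 0 le_rfl).trans (Real.rpow_zero ρ).le
    have h2 := pos (Nat.find (ex 0))
    have h3 : PD d (Nat.find (ex 0)) ≤ 1 := by exact_mod_cast h1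
    have h4 : 0 < PD d (Nat.find (ex 0)) := by exact_mod_cast h2
    have : PD d (Nat.find (ex 0)) = 1 := by omega
    exact congrArg (Nat.cast : ℕ → ℤ) this
  · intro y hy q hq
    refine le_csInf ⟨_, 0, by simp [PD], rfl⟩ ?_
    rintro _ ⟨n, hn, rfl⟩
    have hlt : n ≤ Nat.find (ex y) := by
      by_contra hc
      exact hq (Int.natCast_dvd_natCast.2 ((PD_dvd d (not_le.1 hc).le).trans hn))
    have h1 : (PD d n : ℝ) ≤ PD d (Nat.find (ex y)) := by
      have := pos (Nat.find (ex y))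
      exact_mod_cast Nat.le_of_dvd (by exact_mod_cast this) (PD_dvd d hlt)
    rw [add_zero, Real.rpow_neg (by linarith), ← one_div]
    exact one_div_le_one_div_of_le (pos n) (h1.trans (up y hy))

theorem main (d : ℕ → ℕ) (hd : ∀ n, 2 ≤ d n) (M : ℕ) (hM : ∀ n, d n ≤ M) (i j k : Fin 2 → ℝ)
    (hw : ∀ t, 0 ≤ i t ∧ i t ≤ 1 ∧ 0 ≤ j t ∧ j t ≤ 1 ∧ 0 ≤ k t ∧ k t ≤ 1 ∧ i t + j t + k t = 1) :
    ∃ x y : ℝ, ∀ t : Fin 2, ∃ c : ℝ, 0 < c ∧ ∀ q : ℕ, 0 < q →
      ((q : ℝ) * (if i t = 0 then 0 else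
          (sInf ((fun n : ℕ => (1 : ℝ) / ((PD d n : ℕ) : ℝ)) ''
            {n : ℕ | PD d n ∣ q})) ^ (1 / i t)) > c ∨
       (q : ℝ) * (if j t = 0 then 0 else
          |(q : ℝ) * x - (round ((q : ℝ) * x) : ℝ)| ^ (1 / j t)) > c ∨
       (q : ℝ) * (if k t = 0 then 0 else
          |(q : ℝ) * y - (round ((q : ℝ) * y) : ℝ)| ^ (1 / k t)) > c) := by
  obtain ⟨s0, hs0⟩ := exists_nat_ge (1 / j 0 + 1 / j 1)
  set s := s0 + 1 with hs
  have hjs : ∀ t, 0 < j t → 1 ≤ j t * s := by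
    intro t ht
    have a0 : 0 ≤ 1 / j 0 := by have := (hw 0).2.2.1; positivity
    have a1 : 0 ≤ 1 / j 1 := by have := (hw 1).2.2.1; positivity
    have : 1 / j t ≤ s := by
      rw [hs]; push_cast
      fin_cases t
      · simp only [Fin.zero_eta] ; linarith
      · simp only [Fin.mk_one]; linarith
    rw [div_le_iff₀ ht] at this
    linarith
  set R : ℕ := M + 16 * s + 100 with hR
  have hρ : (4 : ℝ) ≤ R := by exact_mod_cast (by omega : 4 ≤ R)
  obtain ⟨δ, hδ, δ0, hN⟩ := exists_delta d hd hρ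
    (fun n => by have := hM n; exact_mod_cast (by omega : d n ≤ R))
  obtain ⟨y, hy⟩ := cantor R _ (by simp; omega)
    ((niceMix (on := 0 < k 0) hρ hδ (hw 0).1 id).sum (niceMix (on := 0 < k 1) hρ hδ (hw 1).1 id))
  have Hy : ∀ t, 0 < k t → HM R δ (i t) (k t) y := by
    intro t ht
    fin_cases t
    · exact finalMix hρ hδ (hw 0).1 ht ht (fun m n t c hc => hy m n (Sum.inl t) c hc)
    · exact finalMix hρ hδ (hw 1).1 ht ht (fun m n t c hc => hy m n (Sum.inr t) c hc)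
  have N2 : ∀ t, Nice (R : ℝ) (Two R δ (i t) (j t) (k t) y (0 < j t ∧ 0 < k t) s) := fun t =>
    niceTwo hρ hδ (hw t).1 (hw t).2.2.1 (hw t).2.2.2.2.1 (hw t).2.2.2.2.2.2 (by omega)
      (fun h => hjs t h.1) (fun h => Hy t h.2)
  obtain ⟨x, hx⟩ := cantor R _ (by simp; omega)
    (((niceMix (on := 0 < j 0) hρ hδ (hw 0).1 id).sum (niceMix (on := 0 < j 1) hρ hδ (hw 1).1 id)).sum
      ((N2 0).sum (N2 1)))
  have Hx : ∀ t, 0 < j t → HM R δ (i t) (j t) x := by
    intro t ht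
    fin_cases t
    · exact finalMix hρ hδ (hw 0).1 ht ht (fun m n t c hc => hx m n (Sum.inl (Sum.inl t)) c hc)
    · exact finalMix hρ hδ (hw 1).1 ht ht (fun m n t c hc => hx m n (Sum.inl (Sum.inr t)) c hc)
  have H2 : ∀ t, ∀ m n u, ∀ c ∈ Two R δ (i t) (j t) (k t) y (0 < j t ∧ 0 < k t) s m n u,
      (R : ℝ) ^ (-(m : ℤ)) ≤ |x - c| := by
    intro t
    fin_cases t
    · exact fun m n t c hc => hx m n (Sum.inr (Sum.inl t)) c hc
    · exact fun m n t c hc => hx m n (Sum.inr (Sum.inr t)) c hc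
  refine ⟨x, y, fun t => ?_⟩
  obtain ⟨i0, -, j0, -, k0, -, hsum⟩ := hw t
  have aj : 0 ≤ 12 / j t := by positivity
  have ak : 0 ≤ 12 / k t := by positivity
  refine ⟨_, rpos hρ (-(12 / j t + 12 / k t + 1)), fun q hq => ?_⟩
  have hq1 : (1 : ℤ) ≤ q := by exact_mod_cast hq
  have caseI : ∀ τ : ℝ, 0 ≤ τ → (R : ℝ) ^ τ ≤ q → ¬ δ (i t * τ) ∣ (q : ℤ) →
      (q : ℝ) * (if i t = 0 then 0 else
          (sInf ((fun n : ℕ => (1 : ℝ) / ((PD d n : ℕ) : ℝ)) ''
            {n : ℕ | PD d n ∣ q})) ^ (1 / i t)) > (R : ℝ) ^ (-(12 / j t + 12 / k t + 1)) := by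
    intro τ τ0 h1 h2
    have hi : i t ≠ 0 := by
      intro h; rw [h, zero_mul, δ0] at h2; exact h2 (one_dvd _)
    rw [if_neg hi]
    exact conv hρ (lt_of_le_of_ne i0 hi.symm) (by rw [zero_div]; linarith) h1
      (hN _ (by positivity) q h2)
  rcases eq_or_lt_of_le j0 with hj | hj <;> rcases eq_or_lt_of_le k0 with hk | hk
  · left
    have hi : i t = 1 := by linarith
    have q1 : (1 : ℝ) ≤ q := by exact_mod_cast hq
    have h1 : (1 : ℝ) / q ≤ sInf ((fun n : ℕ => (1 : ℝ) / ((PD d n : ℕ) : ℝ)) ''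
        {n : ℕ | PD d n ∣ q}) := by
      refine le_csInf ⟨_, 0, by simp [PD], rfl⟩ ?_
      rintro _ ⟨n, hn, rfl⟩
      have := PD_gt d hd n
      exact one_div_le_one_div_of_le (by exact_mod_cast (by omega : 0 < PD d n))
        (by exact_mod_cast Nat.le_of_dvd hq hn)
    rw [if_neg (by rw [hi]; norm_num), hi, div_one, Real.rpow_one]
    rw [div_le_iff₀ (by linarith)] at h1
    have := rlt hρ (show -(12 / j t + 12 / k t + 1) < 0 by linarith)
    rw [Real.rpow_zero] at this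
    linarith
  · obtain ⟨τ, τ0, h1, h2 | h2⟩ := finalOne hρ (by linarith) (Hy t hk) (round ((q : ℝ) * y)) q hq1
    · exact Or.inl (caseI τ τ0 (by simpa using h1) h2)
    · right; right
      rw [if_neg hk.ne']
      exact conv hρ hk (by linarith) (by simpa using h1) (by simpa using h2)
  · obtain ⟨τ, τ0, h1, h2 | h2⟩ := finalOne hρ (by linarith) (Hx t hj) (round ((q : ℝ) * x)) q hq1
    · exact Or.inl (caseI τ τ0 (by simpa using h1) h2)
    · right; left
      rw [if_neg hj.ne']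
      exact conv hρ hj (by linarith) (by simpa using h1) (by simpa using h2)
  · obtain ⟨τ, τ0, h1, h2 | h2 | h2⟩ := finalTwo hρ j0 ⟨hj, hk⟩ (H2 t) (round ((q : ℝ) * x))
      (round ((q : ℝ) * y)) q hq1
    · exact Or.inl (caseI τ τ0 (by simpa using h1) h2)
    · right; left
      rw [if_neg hj.ne']
      exact conv hρ hj (by linarith) (by simpa using h1) (by simpa using h2)
    · right; right
      rw [if_neg hk.ne']
      exact conv hρ hk (by linarith) (by simpa using h1) (by simpa using h2)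

end Pool.Agent.H.MP_ed6e5c_nt
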